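import Mathlib
import Pool.Agent.H204R3.GP.MTDefs

/-!
# Hodge classes and Tate classes of bounded degree in the tensor powers of the first cohomology group
-/

namespace Pool.Agent.K4H22.B

open Pool.Agent.H204R3.GP

/-- All Hodge classes in the tensor powers `H^1(A, ℚ)^{⊗ 2 m}(m)` with `m ≤ M` are linear combinations of
products of Hodge classes of degree two. -/
def HodgeUpTo {W T : Type*} [AddCommGroup W] [Module ℚ W] [AddCommGroup T] [Module ℂ T]
    (per : W →+ T) (M : ℕ) : Prop :=
  ∀ m ≤ M, ∀ ψ : MultilinearMap ℚ (fun _ : Fin m × Fin 2 => W) ℚ, IsHodgeTensor per ψ →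
    ψ ∈ Submodule.span ℚ {ψ' : MultilinearMap ℚ (fun _ : Fin m × Fin 2 => W) ℚ |
      IsProductOfHodgeBilinear per ψ'}

/-- All Tate classes in the tensor powers `V^{⊗ 2 m}` with `m ≤ M` are linear combinations of Hodge
classes which are products of Hodge classes of degree two. -/
def MumfordTateUpTo {k V Γ : Type*} [Field k] [CharZero k] [AddCommGroup V] [Module k V] [Group Γ]
    {W T : Type*} [AddCommGroup W] [Module ℚ W] [AddCommGroup T] [Module ℂ T]
    (per : W →+ T) (comp : W →+ V) (ρ : Representation k Γ V) (χ : Γ →* k) (M : ℕ) : Prop :=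
  ∀ m ≤ M, ∀ φ : MultilinearMap k (fun _ : Fin m × Fin 2 => V) k, IsTateTensor ρ χ m φ →
    φ ∈ Submodule.span k {φ' : MultilinearMap k (fun _ : Fin m × Fin 2 => V) k |
      ∃ ψ : MultilinearMap ℚ (fun _ : Fin m × Fin 2 => W) ℚ, IsHodgeTensor per ψ ∧
        IsProductOfHodgeBilinear per ψ ∧ Compares comp φ' ψ}

end Pool.Agent.K4H22.B
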