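import Mathlib
import Pool.Agent.K4H22.B.Defs
import Pool.Agent.K4H22.B.Neat
import Pool.Agent.K4H22.Y.Main

/-!
# The Mumford-Tate conjecture and the Hodge conjecture in bounded degree from one Frobenius element
-/

set_option linter.unusedSectionVars false
set_option linter.unusedVariables false

namespace Pool.Agent.K4H22.B

open NumberField Module TensorProduct Pool.Agent.W527 Pool.Agent.H204R3.GP Pool.Agent.H204R3.CM
  Pool.Agent.TH170.FT Pool.Agent.K4H22.Z Pool.Agent.K4H22.Y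

section

variable {p : ℕ} [Fact p.Prime] {I : Type} [Fintype I] {K : I → Type} [∀ i, Field (K i)]
  [∀ i, NumberField (K i)] [∀ i, IsCMField (K i)]

theorem neatM_of_vanish {n : ℕ} {π : ∀ i, K i} (hW : π ∈ Z.Weil p K n) {M : ℕ}
    (hbal : ∀ r ≤ 2 * M, ∀ x : Fin r → Σ i, (K i →+* AlgebraicClosure ℚ), Vanish p n π x →
      ZeroOne.Balanced x) {L : Type} [Field L] [NumberField L] :
    NeatM p n π L M := by
  classical
  have _ := isAlg
  intro m hm N hN J hrel y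
  let k : L →+* AlgebraicClosure ℚ := Classical.arbitrary _
  have hsum : ∀ J' : AlgebraicClosure ℚ →+* PadicAlgCl p,
      ∑ l, dv p n π (J l).1 (J'.comp (k.comp (J l).2)) = 0 := by
    intro J'
    have h1 := congrArg (fun z => sl (p := p) (J'.comp k) z) hrel
    have hne : ∀ l, Pool.Agent.H204R3.GP.val π (J l) ≠ 0 := fun l =>
      (map_ne_zero (J l).2).2 (weil_ne hW (J l).1)
    have hprod : ∀ (S : Finset (Fin m × Fin 2)) (f : Fin m × Fin 2 → L), (∀ l, f l ≠ 0) →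
        sl (p := p) (J'.comp k) (∏ l ∈ S, f l) = ∑ l ∈ S, sl (p := p) (J'.comp k) (f l) := by
      intro S f hf
      induction S using Finset.induction_on with
      | empty =>
        unfold sl
        rw [Finset.prod_empty, Finset.sum_empty, map_one, norm_one, Real.logb_one, neg_zero]
      | insert a S ha ih =>
        rw [Finset.prod_insert ha, Finset.sum_insert ha,
          sl_mul _ (hf a) (Finset.prod_ne_zero_iff.2 fun l _ => hf l), ih]
    rw [hprod _ _ fun l => pow_ne_zero _ (hne l)] at h1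
    have hp0 : (p : L) ≠ 0 := by exact_mod_cast (Fact.out : p.Prime).ne_zero
    simp only [sl_pow, sl_p] at h1
    have h2 : ∀ l, dv p n π (J l).1 (J'.comp (k.comp (J l).2)) =
        2 * sl (p := p) (J'.comp k) (Pool.Agent.H204R3.GP.val π (J l)) - n := fun l => rfl
    rw [Finset.sum_congr rfl fun l _ => h2 l, Finset.sum_sub_distrib, ← Finset.mul_sum,
      Finset.sum_const, Finset.card_univ, Fintype.card_prod, Fintype.card_fin, Fintype.card_fin,
      nsmul_eq_mul]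
    rw [← Finset.mul_sum] at h1
    have hM' : (N : ℝ) ≠ 0 := by exact_mod_cast hN.ne'
    have h3 : ∑ l, sl (p := p) (J'.comp k) (Pool.Agent.H204R3.GP.val π (J l)) = m * n := by
      apply mul_left_cancel₀ hM'
      rw [h1]
      push_cast
      ring
    rw [h3]
    push_cast
    ring
  let E : Fin (m * 2) ≃ Fin m × Fin 2 := finProdFinEquiv.symm
  let x : Fin (m * 2) → Σ i, (K i →+* AlgebraicClosure ℚ) := fun r =>
    ⟨(J (E r)).1, k.comp (J (E r)).2⟩
  have hb := hbal (m * 2) (by omega) x (fun J' => by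
    rw [← hsum J']
    exact Equiv.sum_comp E fun l => dv p n π (J l).1 (J'.comp (k.comp (J l).2)))
    ⟨y.1, k.comp y.2⟩
  have hinj : ∀ a b : (Σ i, (K i →+* L)), (⟨a.1, k.comp a.2⟩ : Σ i, (K i →+* AlgebraicClosure ℚ)) =
      ⟨b.1, k.comp b.2⟩ ↔ a = b := by
    rintro ⟨i, φ⟩ ⟨i', φ'⟩
    constructor
    · intro h
      obtain ⟨h1, h2⟩ := Sigma.mk.inj h
      subst h1
      have h3 : k.comp φ = k.comp φ' := eq_of_heq h2
      rw [show φ = φ' from RingHom.ext fun z => k.injective (RingHom.congr_fun h3 z)]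
    · intro h
      rw [h]
  have hcard : ∀ z : (Σ i, (K i →+* L)), Nat.card {r // x r = ⟨z.1, k.comp z.2⟩} =
      (Finset.univ.filter (fun l => J l = z)).card := by
    intro z
    rw [← Fintype.card_subtype, ← Nat.card_eq_fintype_card]
    refine Nat.card_congr (E.subtypeEquiv fun r => ?_)
    exact hinj (J (E r)) z
  rw [hcard y] at hb
  rw [hb]
  exact hcard (bar y)

/-- The Mumford-Tate conjecture in bounded degree. -/
theorem mumfordTateM {n : ℕ} {π : ∀ i, K i} (hW : π ∈ Z.Weil p K n) {M : ℕ} (hM : 1 ≤ M)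
    (hgen : ∀ i, IntermediateField.adjoin ℚ {π i} = ⊤)
    (hbal : ∀ r ≤ 2 * M, ∀ x : Fin r → Σ i, (K i →+* AlgebraicClosure ℚ), Vanish p n π x →
      ZeroOne.Balanced x)
    {ℓ : ℕ} [Fact ℓ.Prime] {W T V Γ : Type} [AddCommGroup W] [Module ℚ W]
    [AddCommGroup T] [Module ℂ T] [AddCommGroup V] [Module ℚ_[ℓ] V] [FiniteDimensional ℚ_[ℓ] V]
    [Group Γ] {per : W →+ T} {ω₀ : W →ₗ[ℚ] W →ₗ[ℚ] ℚ} {comp : W →+ V}
    {ρ : Representation ℚ_[ℓ] Γ V} {χ : Γ →* ℚ_[ℓ]} {ω : V →ₗ[ℚ_[ℓ]] V →ₗ[ℚ_[ℓ]] ℚ_[ℓ]}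
    (hR : IsRealization per ω₀ comp ρ χ ω) (hF : HasFrobenius ρ χ p n π) :
    MumfordTateUpTo per comp ρ χ M := by
  obtain ⟨L, hL1, hL2, j, h⟩ := Pool.Agent.H204R3.CM.exists_galois K
  obtain ⟨γ, hχ, hγ⟩ := hF
  have hss' : ∀ Δ : Subgroup Γ, Δ.FiniteIndex → SemiUnder (ρ '' (Δ : Set Γ)) := by
    intro Δ hΔ U hU
    obtain ⟨U', h1, h2⟩ := hR.semisimple Δ hΔ U (fun s hs u hu => hU _ ⟨s, hs, rfl⟩ u hu)
    refine ⟨U', ?_, h2⟩
    rintro _ ⟨s, hs, rfl⟩ u hu
    exact h1 s hs u hu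
  have hanti : ∀ u v, ω u v = - ω v u := by
    intro u v
    have h1 := hR.alternating (u + v)
    simp only [map_add, LinearMap.add_apply, hR.alternating, zero_add, add_zero] at h1
    linear_combination h1
  have hnd' : ∀ u, (∀ v, ω u v = 0) → u = 0 := by
    intro u hu
    apply hR.nondegenerate
    intro v
    rw [hanti, hu, neg_zero]
  have hnd : ∀ u, (∀ v, ω v u = 0) → u = 0 := hR.nondegenerate
  intro m hm φ hφ
  have h1 := tate_of_neatM hgen (fun i => weil_mul hW i) j h hM (neatM_of_vanish hW hbal) ρ χ ω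
    hR.alternating hnd hR.equivariant hss' γ hχ hγ hm φ hφ
  refine Submodule.span_le.2 ?_ h1
  rintro _ ⟨σ, B, hB, rfl⟩
  have h2 := mmG_mem_span σ (HB (k := ℚ_[ℓ]) per comp) B
    (fun l => tate2_mem per comp ρ χ ω hnd' hR.equivariant ω₀ hR.hodge hR.compatible hR.faltings
      (B l) (hB l))
  refine Submodule.span_mono ?_ h2
  rintro _ ⟨B', hB', rfl⟩
  exact mm_good per comp σ B' hB'

/-- Hodge classes of bounded degree. -/
theorem hodgeM {ℓ : ℕ} [Fact ℓ.Prime] {W T Γ : Type} [AddCommGroup W] [Module ℚ W]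
    [FiniteDimensional ℚ W] [AddCommGroup T] [Module ℂ T] [Group Γ] {per : W →+ T}
    {ω₀ : W →ₗ[ℚ] W →ₗ[ℚ] ℚ} (D : GaloisData per ω₀ Γ ℓ) {M : ℕ}
    (h : MumfordTateUpTo per (incl W ℓ) D.ρ D.χ M) : HodgeUpTo per M := by
  intro m hm ψ hψ
  obtain ⟨φ, hφ⟩ := exists_extension ℓ ψ
  have h1 := h m hm φ (D.deligne m ψ φ hψ hφ)
  have h2 : φ ∈ Submodule.span ℚ_[ℓ] {φ' | ∃ ψ' ∈ {ψ' | IsProductOfHodgeBilinear per ψ'},
      Compares (incl W ℓ) φ' ψ'} := by
    refine Submodule.span_mono ?_ h1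
    rintro φ' ⟨ψ', _, h3, h4⟩
    exact ⟨ψ', h3, h4⟩
  obtain ⟨f, hf⟩ := LinearMap.exists_leftInverse_of_injective
    (LinearMap.toSpanSingleton ℚ ℚ_[ℓ] 1) (LinearMap.ker_eq_bot.2 fun x y hxy => by
      simpa using hxy)
  have hf1 : f 1 = 1 := by
    have := LinearMap.congr_fun hf 1
    simpa using this
  obtain ⟨ξ, hξ, h3⟩ := descent h2 f
  have h4 : ψ = ξ := by
    ext v
    rw [h3 v, hφ v]
    have h5 : ((ψ v : ℚ) : ℚ_[ℓ]) = (ψ v) • (1 : ℚ_[ℓ]) := by
      rw [Rat.smul_one_eq_cast]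
    rw [h5, map_smul, hf1, smul_eq_mul, mul_one]
  rw [h4]
  exact hξ

/-- For almost all families all sequences with vanishing slopes are balanced. -/
theorem law_vanish (m : ℕ)
    (h : ∀ r ≤ m, ∀ x : Fin r → Σ i, (K i →+* AlgebraicClosure ℚ),
      ZeroOne.LocallyBalanced p x → ZeroOne.Balanced x) :
    ∃ C : ℝ, ∀ n : ℕ, (n : ℝ) * {π ∈ ZeroOne.Weil K p n |
      ¬ ∀ r ≤ m, ∀ x : Fin r → Σ i, (K i →+* AlgebraicClosure ℚ), Vanish p n π x →
        ZeroOne.Balanced x}.ncard ≤ C * (ZeroOne.Weil K p n).ncard := by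
  classical
  let T := Σ r : Fin (m + 1), (Fin r.1 → Σ i, (K i →+* AlgebraicClosure ℚ))
  have hC : ∀ x : T, ∃ C : ℝ, 0 ≤ C ∧ ∀ n : ℕ,
      (n : ℝ) * (((WF p K n).filter fun π => ¬ ZeroOne.Balanced x.2 ∧
        Vanish p n π x.2).card : ℝ) ≤ C * (WF p K n).card := fun x =>
    count_seq x.2 (h x.1.1 (Nat.lt_succ_iff.1 x.1.2) x.2)
  choose C hC0 hC using hC
  refine ⟨∑ x : T, C x, fun n => ?_⟩
  have h1 : {π ∈ ZeroOne.Weil K p n | ¬ ∀ r ≤ m, ∀ x : Fin r → Σ i, (K i →+* AlgebraicClosure ℚ),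
      Vanish p n π x → ZeroOne.Balanced x} ⊆
      ((Finset.univ.biUnion fun x : T => (WF p K n).filter fun π =>
        ¬ ZeroOne.Balanced x.2 ∧ Vanish p n π x.2 : Finset (∀ i, K i)) : Set (∀ i, K i)) := by
    rintro π ⟨hW, hb⟩
    by_contra hcon
    apply hb
    intro r hr x hx
    by_contra hnb
    apply hcon
    rw [Finset.mem_coe, Finset.mem_biUnion]
    refine ⟨⟨⟨r, Nat.lt_succ_iff.2 hr⟩, x⟩, Finset.mem_univ _, Finset.mem_filter.2 ⟨?_, hnb, hx⟩⟩
    exact mem_WF.2 hW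
  have h2 : ({π ∈ ZeroOne.Weil K p n | ¬ ∀ r ≤ m, ∀ x : Fin r → Σ i, (K i →+* AlgebraicClosure ℚ),
      Vanish p n π x → ZeroOne.Balanced x}.ncard : ℝ) ≤
      ∑ x : T, (((WF p K n).filter fun π =>
        ¬ ZeroOne.Balanced x.2 ∧ Vanish p n π x.2).card : ℝ) := by
    have h3 := Set.ncard_le_ncard h1 (Finset.finite_toSet _)
    rw [Set.ncard_coe_finset] at h3
    have h4 := h3.trans Finset.card_biUnion_le
    exact_mod_cast h4
  have h5 : (WF p K n).card = (ZeroOne.Weil K p n).ncard := WF_card n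
  calc (n : ℝ) * {π ∈ ZeroOne.Weil K p n | ¬ ∀ r ≤ m, ∀ x : Fin r → Σ i,
        (K i →+* AlgebraicClosure ℚ), Vanish p n π x → ZeroOne.Balanced x}.ncard
      ≤ n * ∑ x : T, (((WF p K n).filter fun π =>
        ¬ ZeroOne.Balanced x.2 ∧ Vanish p n π x.2).card : ℝ) :=
        mul_le_mul_of_nonneg_left h2 (Nat.cast_nonneg n)
    _ = ∑ x : T, (n : ℝ) * (((WF p K n).filter fun π =>
        ¬ ZeroOne.Balanced x.2 ∧ Vanish p n π x.2).card : ℝ) := Finset.mul_sum _ _ _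
    _ ≤ ∑ x : T, C x * (WF p K n).card := Finset.sum_le_sum fun x _ => hC x n
    _ = (∑ x : T, C x) * (ZeroOne.Weil K p n).ncard := by
        rw [← Finset.sum_mul, h5]

theorem embeds_of_splits {E : Type} [Field E] [NumberField E] (h : ZeroOne.Splits p E) :
    Nonempty (E →+* ℚ_[p]) := by
  have h1 : 0 < Nat.card (E →+* ℚ_[p]) := by
    rw [show Nat.card (E →+* ℚ_[p]) = finrank ℚ E from h]
    exact finrank_pos
  exact (Nat.card_pos_iff.1 h1).1

end

end Pool.Agent.K4H22.B
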